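import Pool.Agent.Y561.SQ.PMain

set_option autoImplicit false

/-! # Even integers as sums of two distinct odd primes, one of them in an arbitrary finite set `S`

The exact order of magnitude of the least possible number of the even integers `n ≤ x` of the form
`p + q`, `p ∈ S`, `q ≠ p` prime, over the sets `S` of `s` odd primes up to `M`, uniformly for
`2 M ≤ x`. -/

namespace Pool.Agent.Results.MP_61161c_nt.ArbitrarySetsOfPrimes

open Finset

open Classical in
/-- The even integers `n` with `1 ≤ n ≤ x` of the form `p + q`, `p ∈ S`, `q` prime and `q ≠ p`. -/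
noncomputable def sums (S : Finset ℕ) (x : ℕ) : Finset ℕ :=
  (Icc 1 x).filter (fun n => Even n ∧ ∃ p ∈ S, ∃ q : ℕ, q.Prime ∧ q ≠ p ∧ p + q = n)

/-- **Theorem.** `π` is the prime counting function. (1) There is `c > 0` such that for all large `x`,
all `M` with `2 M ≤ x` and every nonempty set `S` of odd primes up to `M`, at least
`c x min (|S| / log x, 1 / log log (16 π(M) / |S|))` of the even integers up to `x` are sums of a prime
in `S` and a different prime.

(2) This is the exact order: there is `C` such that for all large `x`, all `M ≤ x` and all `s ≥ 1` with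
`s + 1 ≤ π(M)` (that is, there are `s` odd primes up to `M`) some set `S` of exactly `s` odd primes up to
`M` has at most `C x min (s / log x, 1 / log log (16 π(M) / s))` such even integers. -/
theorem result :
    (∃ c : ℝ, 0 < c ∧ ∃ x₀ : ℕ, ∀ x M : ℕ, x₀ ≤ x → 2 * M ≤ x →
      ∀ S : Finset ℕ, S.Nonempty → (∀ p ∈ S, p.Prime ∧ 3 ≤ p ∧ p ≤ M) →
        c * (x * min (S.card / Real.log x)
          (1 / Real.log (Real.log (16 * Nat.primeCounting M / S.card)))) ≤ (sums S x).card) ∧
    (∃ C : ℝ, 0 < C ∧ ∃ x₀ : ℕ, ∀ x M s : ℕ, x₀ ≤ x → M ≤ x → 1 ≤ s → s + 1 ≤ Nat.primeCounting M →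
      ∃ S : Finset ℕ, (∀ p ∈ S, p.Prime ∧ 3 ≤ p ∧ p ≤ M) ∧ S.card = s ∧
        ((sums S x).card : ℝ) ≤
          C * (x * min (s / Real.log x)
            (1 / Real.log (Real.log (16 * Nat.primeCounting M / s))))) :=
  ⟨Pool.Agent.Y561.SQ.lower_gold, Pool.Agent.Y561.SQ.upper_gold⟩

end Pool.Agent.Results.MP_61161c_nt.ArbitrarySetsOfPrimes
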