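import Pool.Agent.Y840.CT.LowF

/-!
# Chen's theorem with a common summand for several even numbers
-/

set_option autoImplicit false

open Finset Filter

namespace Pool.Agent.Results.MP_61161c_nt.ChenCommonSummand

/-- `k ≥ 1` is a product of at most `t` primes, all of them larger than `y` -/
def Rough (t : ℕ) (y : ℝ) (k : ℕ) : Prop :=
  0 < k ∧ k.primeFactorsList.length ≤ t ∧ ∀ q : ℕ, q.Prime → q ∣ k → y < q

open Classical in
/-- the primes `p ∈ (A, B]`, `p > N ^ (1/t)`, such that `n₀ - p` is a product of at most two primes, both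
`> N ^ (1/9)`, and `n - p` is a product of at most `t` primes `> N ^ (1/t)`, for all `n ∈ T` -/
noncomputable def P (t N : ℕ) (T : Finset ℕ) (n₀ A B : ℕ) : Finset ℕ :=
  (Ioc A B).filter (fun p : ℕ => p.Prime ∧ (N : ℝ) ^ (1 / (t : ℝ)) < p ∧
    Rough 2 ((N : ℝ) ^ (1 / 9 : ℝ)) (n₀ - p) ∧ ∀ n ∈ T, Rough t ((N : ℝ) ^ (1 / (t : ℝ))) (n - p))

/-- the number of the residue classes modulo `q` met by `0` and `T` -/
def ν (T : Finset ℕ) (q : ℕ) : ℕ := ((insert 0 T).image (fun n : ℕ => n % q)).card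

/-- the sieve product -/
noncomputable def V (T : Finset ℕ) (N : ℕ) : ℝ := ∏ q ∈ (Icc 1 N).filter Nat.Prime, (1 - (ν T q : ℝ) / q)

/-- the shifts -/
def F (T : Finset ℕ) (_ : ℕ) : Finset ℤ := T.image (fun n : ℕ => (n : ℤ))

theorem rho_eq (T : Finset ℕ) (q : ℕ) : Pool.Agent.Y840.CT.rho (F T q) q = ν T q := by
  unfold Pool.Agent.Y840.CT.rho ν F
  have h : (insert (0 : ℤ) (T.image (fun n : ℕ => (n : ℤ)))).image (fun h : ℤ => h % q) =
      ((insert 0 T).image (fun n : ℕ => n % q)).image (fun n : ℕ => (n : ℤ)) := by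
    rw [image_image]
    have : insert (0 : ℤ) (T.image (fun n : ℕ => (n : ℤ))) = (insert 0 T).image (fun n : ℕ => (n : ℤ)) := by
      rw [image_insert]
      simp
    rw [this, image_image]
    apply image_congr
    intro n _
    simp
  rw [h, card_image_of_injective _ Nat.cast_injective]

theorem sys {k N : ℕ} {T : Finset ℕ} {n₀ : ℕ} (hk : T.card ≤ k) (hT : ∀ n ∈ T, n ≤ N) (h0 : n₀ ∈ T) (hpos : 0 < n₀)
    (hloc : ∀ q : ℕ, q.Prime → ν T q < q) : Pool.Agent.Y840.CT.SysF k N (F T) (n₀ : ℤ) := by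
  refine ⟨fun q _ => (card_image_le).trans hk, by exact_mod_cast hpos.ne', ?_, ?_, ?_⟩
  · rw [abs_of_nonneg (by positivity)]
    exact_mod_cast hT n₀ h0
  · intro q _
    exact mem_image_of_mem _ h0
  · intro q hq
    rw [rho_eq]
    exact hloc q hq

theorem P_eq {t N : ℕ} (ht : 1 ≤ t) (hN : 2 ≤ N) {T : Finset ℕ} {n₀ : ℕ} (hT : ∀ n ∈ T, n ≤ N) (h0 : n₀ ∈ T)
    {A B : ℕ} (hB : ∀ n ∈ T, B < n) :
    Pool.Agent.Y840.CT.GoodF t N A B (F T) (n₀ : ℤ) = P t N T n₀ A B := by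
  classical
  have ht0 : (0 : ℝ) < t := by exact_mod_cast ht
  obtain ⟨y, hy⟩ : ∃ y : ℝ, y = (N : ℝ) ^ (1 / (t : ℝ)) := ⟨_, rfl⟩
  have hX1 : (1 : ℝ) < N := by exact_mod_cast hN
  have hy1 : 1 < y := by
    rw [hy]
    exact Real.one_lt_rpow hX1 (by positivity)
  have hyt : (N : ℝ) < y ^ (t + 1) := by
    have h3 : y ^ t = N := by
      rw [hy, ← Real.rpow_natCast, ← Real.rpow_mul (by positivity), one_div, inv_mul_cancel₀ ht0.ne',
        Real.rpow_one]
    rw [pow_succ, h3]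
    nlinarith
  unfold P Pool.Agent.Y840.CT.GoodF
  rw [← hy]
  apply filter_congr
  intro p hp
  rw [mem_Ioc] at hp
  have hc : ∀ n ∈ T, ((n - p : ℕ) : ℤ) = (n : ℤ) - p := by
    intro n hn
    have := hB n hn
    push_cast [Nat.cast_sub (by omega : p ≤ n)]
    ring
  have habs : ((n₀ : ℤ) - (p : ℤ)).natAbs = n₀ - p := by
    rw [← hc n₀ h0, Int.natAbs_natCast]
  have hn0 := hB n₀ h0
  constructor
  · rintro ⟨h1, h2, ⟨h3a, h3b, h3c⟩, h4⟩
    rw [habs] at h3b
    refine ⟨h1, h2, ⟨by omega, h3b, ?_⟩, ?_⟩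
    · intro q hq hd
      apply h3c q hq
      rw [← hc n₀ h0]
      exact_mod_cast hd
    · intro n hn
      have hnB := hB n hn
      have hsm : ∀ q : ℕ, q.Prime → q ∣ n - p → y < q := by
        intro q hq hd
        by_contra hcon
        push Not at hcon
        refine h4 q hq hcon (n : ℤ) (mem_image_of_mem _ hn) ?_
        rw [← hc n hn]
        exact_mod_cast hd
      refine ⟨by omega, ?_, hsm⟩
      apply Pool.Agent.Y840.CT.length_le (by omega) hy1.le ?_ hyt hsm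
      exact_mod_cast (Nat.sub_le _ _).trans (hT n hn)
  · rintro ⟨h1, h2, ⟨h3a, h3b, h3c⟩, h4⟩
    refine ⟨h1, h2, ⟨by omega, by rwa [habs], ?_⟩, ?_⟩
    · intro q hq hd
      rw [← hc n₀ h0] at hd
      exact h3c q hq (by exact_mod_cast hd)
    · intro q hq hqy h hh hd
      unfold F at hh
      rw [mem_image] at hh
      obtain ⟨n, hn, rfl⟩ := hh
      rw [← hc n hn] at hd
      have := (h4 n hn).2.2 q hq (by exact_mod_cast hd)
      linarith

/-- For every `k` there are `t`, `c` such that, for all sets `T` of at most `k` integers in `[1, N]` without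
local obstruction (`ν T q < q` for all primes `q`; in particular all elements are even) and all `n₀ ∈ T`:
(1) for every `θ > 0` and large `N`, every interval `(A, B]` with `B < min T`, `B - A ≥ θ N` contains at least
`c (B - A) V` elements of `P`, and `V ≥ c / log ^ (k + 1) N`. (2) For all `l`, `θ`, `δ` there is `D` such
that moreover every subset of `P` with at least `δ #P` elements contains an `l`-term progression with
difference at most `log ^ D N`. -/
theorem result (k : ℕ) : ∃ t : ℕ, 1 ≤ t ∧ ∃ c : ℝ, 0 < c ∧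
    (∀ θ : ℝ, 0 < θ → ∃ N₀ : ℕ, ∀ N : ℕ, N₀ ≤ N → ∀ T : Finset ℕ, T.card ≤ k → (∀ n ∈ T, n ≤ N) →
      (∀ q : ℕ, q.Prime → ν T q < q) → c / Real.log N ^ (k + 1) ≤ V T N ∧
      ∀ n₀ ∈ T, ∀ A B : ℕ, (∀ n ∈ T, B < n) → θ * N ≤ (B : ℝ) - A →
        c * ((B : ℝ) - A) * V T N ≤ ((P t N T n₀ A B).card : ℝ)) ∧
    (∀ l : ℕ, ∀ θ δ : ℝ, 0 < θ → 0 < δ → ∃ D N₀ : ℕ, ∀ N : ℕ, N₀ ≤ N → ∀ T : Finset ℕ, T.card ≤ k →
      (∀ n ∈ T, n ≤ N) → (∀ q : ℕ, q.Prime → ν T q < q) →
      ∀ n₀ ∈ T, ∀ A B : ℕ, (∀ n ∈ T, B < n) → θ * N ≤ (B : ℝ) - A →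
        ∀ S : Finset ℕ, S ⊆ P t N T n₀ A B → δ * ((P t N T n₀ A B).card : ℝ) ≤ S.card →
          ∃ a d : ℕ, 1 ≤ d ∧ (d : ℝ) ≤ Real.log N ^ D ∧ ∀ m < l, a + m * d ∈ S) := by
  classical
  obtain ⟨t, ht, c, hc, H1, H2⟩ := Pool.Agent.Y840.CT.genF k
  obtain ⟨c3, hc3, hV3⟩ := Pool.Agent.Y840.CT.VF_low k
  have hVe : ∀ (T : Finset ℕ) (N : ℕ), Pool.Agent.Y840.CT.VF (F T) N = V T N := by
    intro T N
    unfold Pool.Agent.Y840.CT.VF V
    apply prod_congr rfl
    intro q _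
    rw [rho_eq]
  refine ⟨t, ht, min c c3, by positivity, ?_, ?_⟩
  · intro θ hθ
    obtain ⟨X₀, h1⟩ := H1 θ hθ
    refine ⟨max X₀ 2, fun N hN T hk hT hloc => ?_⟩
    have hN2 : 2 ≤ N := (le_max_right _ _).trans hN
    have hlN : 0 < Real.log N := Real.log_pos (by exact_mod_cast (by omega : 1 < N))
    have hlow : min c c3 / Real.log N ^ (k + 1) ≤ V T N := by
      rw [← hVe]
      refine le_trans ?_ (hV3 N hN2 (F T) (fun q _ => card_image_le.trans hk)
        (fun q hq => by rw [rho_eq]; exact hloc q hq))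
      exact div_le_div_of_nonneg_right (min_le_right _ _) (by positivity)
    refine ⟨hlow, fun n₀ hn0 A B hB hAB => ?_⟩
    have hB0 := hB n₀ hn0
    have hn0N := hT n₀ hn0
    have h2 := h1 N ((le_max_left _ _).trans hN) (F T) _ (sys hk hT hn0 (by omega) hloc) A B (by omega) hAB
    rw [P_eq ht hN2 hT hn0 hB, hVe] at h2
    refine le_trans ?_ h2
    have hV0 : 0 ≤ V T N := le_trans (by positivity) hlow
    have hBA : 0 ≤ (B : ℝ) - A := le_trans (by positivity) hAB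
    gcongr
    exact min_le_left _ _
  · intro l θ δ hθ hδ
    obtain ⟨D, X₀, h1⟩ := H2 l θ δ hθ hδ
    refine ⟨D, max X₀ 2, fun N hN T hk hT hloc n₀ hn0 A B hB hAB S hS1 hS2 => ?_⟩
    have hN2 : 2 ≤ N := (le_max_right _ _).trans hN
    have hB0 := hB n₀ hn0
    have hn0N := hT n₀ hn0
    have h2 := h1 N ((le_max_left _ _).trans hN) (F T) _ (sys hk hT hn0 (by omega) hloc) A B (by omega) hAB
    rw [P_eq ht hN2 hT hn0 hB] at h2
    exact h2 S hS1 hS2

end Pool.Agent.Results.MP_61161c_nt.ChenCommonSummand
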