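import Pool.Agent.Y879.GL.Prog2
import Pool.Agent.Y879.GL.Pattern

set_option autoImplicit false

/-!
Goldbach pairs in progressions, for EVERY even number `N` and EVERY progression `a + q m` with
`q ≤ N ^ (1 - δ)`: the gap laws for the almost prime pairs `(n, N - n)` with `n = a + q m`, and the regular
points of ARBITRARY sets of such pairs, for instance of the set of the pairs of primes.
-/

namespace Pool.Agent.Results.MP_61161c_nt.GoldbachProgressions

open Finset Filter
open Pool.Agent.Y879.AP Pool.Agent.Y879.GL Pool.Agent.W123.RP Pool.Agent.H373R2.T7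
open Pool.Agent.TH464.PO Pool.Agent.TH464.PW Pool.Agent.W123.RU.Poly
open Pool.Agent.TH977.PW (N)

/-- neither `n` nor `M - n` has a prime factor `p ≤ M ^ (1 / r)`, where `n = a + q m` -/
def Good (M q a r m : ℕ) : Prop :=
  ∀ p : ℕ, p.Prime → (p : ℝ) ≤ (M : ℝ) ^ (1 / (r : ℝ)) →
    ¬ (p : ℤ) ∣ (a : ℤ) + q * m ∧ ¬ (p : ℤ) ∣ (M : ℤ) - (a + q * m)

/-- the number of the residue classes `0` and `M` modulo `p` -/
def nu (M p : ℕ) : ℕ := if p ∣ M then 1 else 2

/-- the product of `1 - nu(p) / p` over the primes `p ≤ M ^ (1 / r)` not dividing `q` -/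
noncomputable def V (M q r : ℕ) : ℝ :=
  ∏ p ∈ ((Icc 1 ⌊(M : ℝ) ^ (1 / (r : ℝ))⌋₊).filter Nat.Prime).filter (fun p => ¬ p ∣ q), (1 - (nu M p : ℝ) / p)

open Classical in
/-- the number of the good `m` in `(u, u + Y]` with fewer than `k` good numbers in `[m - T, m)` -/
noncomputable def Near (M q a r k T u Y : ℕ) : ℕ :=
  ((Ioc u (u + Y)).filter (fun m => Good M q a r m ∧
    ((Ico (m - T) m).filter (Good M q a r)).card < k)).card

/-- the admissible progressions -/
def Adm (M : ℕ) (δ : ℝ) (q a : ℕ) : Prop :=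
  1 ≤ q ∧ (q : ℝ) ≤ (M : ℝ) ^ (1 - δ) ∧ a ≤ M ∧ Nat.Coprime q a ∧ IsCoprime (q : ℤ) ((M : ℤ) - a)

lemma he : (-1 : ℤ) * (-1) = 1 := by norm_num

lemma good_iff (M q a r m : ℕ) : Good M q a r m ↔
    Sf (Q (pf (-1) (M : ℤ) q a)) ⌊(M : ℝ) ^ (1 / (r : ℝ))⌋₊ m := by
  have key : ∀ p : ℕ, p.Prime → (¬ Q (pf (-1) (M : ℤ) q a) p m ↔
      ¬ (p : ℤ) ∣ (a : ℤ) + q * m ∧ ¬ (p : ℤ) ∣ (M : ℤ) - (a + q * m)) := by
    intro p hp
    have hpi : Prime (p : ℤ) := Nat.prime_iff_prime_int.1 hp
    rw [pf_Q _ _ q a p m hp]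
    unfold Q2
    rw [hpi.dvd_mul, not_or]
    push_cast
    rw [show (-1 : ℤ) * (q * m + a) + M = (M : ℤ) - (a + q * m) by ring, add_comm ((q : ℤ) * m)]
  unfold Good Sf
  constructor
  · intro h p hp
    obtain ⟨hp1, hp2⟩ := mem_pz.1 hp
    exact (key p hp2).2 (h p hp2 ((Nat.le_floor_iff (by positivity)).1 hp1))
  · intro h p hp hpr
    exact (key p hp).1 (h p (mem_pz.2 ⟨Nat.le_floor hpr, hp⟩))

lemma V_eq (M q r : ℕ) : V M q r = Vq (Qn (Q2 (-1) (M : ℤ)) q) ⌊(M : ℝ) ^ (1 / (r : ℝ))⌋₊ := by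
  unfold V Vq
  rw [Finset.prod_filter]
  apply Finset.prod_congr rfl
  intro p hp
  have hpp := (mem_pz.1 hp).2
  by_cases h : p ∣ q
  · rw [if_neg (by simpa using h), nuB_Qn_dvd _ _ _ h]
    simp
  · rw [if_pos h, nuB_Qn_not _ _ _ h, nuB_Q2 _ _ he p hpp]
    unfold nu nu2
    by_cases h2 : p ∣ M
    · rw [if_pos h2, if_pos (Int.natCast_dvd_natCast.2 h2)]
    · rw [if_neg h2, if_neg (fun h3 => h2 (Int.natCast_dvd_natCast.1 h3))]

lemma Near_eq (M q a r k T u Y : ℕ) : Near M q a r k T u Y =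
    Pk (Sf (Q (pf (-1) (M : ℤ) q a)) ⌊(M : ℝ) ^ (1 / (r : ℝ))⌋₊) k T u Y := by
  have h : Good M q a r = Sf (Q (pf (-1) (M : ℤ) q a)) ⌊(M : ℝ) ^ (1 / (r : ℝ))⌋₊ :=
    funext fun m => propext (good_iff M q a r m)
  unfold Near Pk
  rw [h]

/-- **Gap laws and regular points for Goldbach pairs in progressions, for every even number.** For all
`θ, δ, ε > 0`, `k₀` and `x₀` there is `r₀` such that for all `r ≥ r₀`:

(a) for EVERY large even `M` and EVERY progression `a + q m` with `q ≤ M ^ (1 - δ)` and `a`, `M - a` prime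
to `q`: (1) for good `m` with `0 < a + q m < M` both `n = a + q m` and `M - n` have at most `r` prime
factors; (2) if `n = a + q m` and `M - n` are primes larger than `M ^ (1 / r)`, then `m` is good;
(3) in every interval `(u, u + Y]` with `Y ≥ M ^ θ` the number of the good `m` with fewer than `k` good
numbers in `[m - T, m)` is `Y V (∑ j < k, e ^ (-T V) (T V) ^ j / j! + η)` with `|η| ≤ ε`, provided that
`k ≤ k₀` or `T V ≤ x₀`;

(b) there is `c > 0` and for every `η > 0` a `B` such that for EVERY large even `M`, EVERY such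
progression, in every interval `(u, u + Y]` with `M ^ θ ≤ Y ≤ M`, `Y ≤ u`, and for EVERY set `A` of good
numbers: all but at most `ε Y V` elements of `A` in the interval are regular points of `A`. -/
theorem result (θ δ x₀ ε : ℝ) (k₀ : ℕ) (hθ : 0 < θ) (hδ : 0 < δ) (hε : 0 < ε) :
    ∃ r₀ : ℕ, ∀ r : ℕ, r₀ ≤ r →
      (∃ M₀ : ℕ, ∀ M : ℕ, M₀ ≤ M → Even M → ∀ q a : ℕ, Adm M δ q a →
        (∀ m : ℕ, 0 < a + q * m → a + q * m < M → Good M q a r m →
          (a + q * m).primeFactorsList.length ≤ r ∧ (M - (a + q * m)).primeFactorsList.length ≤ r) ∧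
        (∀ m : ℕ, (a + q * m).Prime → (M - (a + q * m)).Prime →
          (M : ℝ) ^ (1 / (r : ℝ)) < ((a + q * m : ℕ) : ℝ) →
          (M : ℝ) ^ (1 / (r : ℝ)) < ((M - (a + q * m) : ℕ) : ℝ) → Good M q a r m) ∧
        ∀ u Y k T : ℕ, (M : ℝ) ^ θ ≤ Y → (k ≤ k₀ ∨ T * V M q r ≤ x₀) →
          |(Near M q a r k T u Y : ℝ) - Y * V M q r *
              ∑ j ∈ range k, Real.exp (-(T * V M q r)) * (T * V M q r) ^ j / j.factorial| ≤
            ε * (Y * V M q r)) ∧
      ∃ c : ℝ, 0 < c ∧ ∀ η : ℝ, 0 < η → ∃ B M₀ : ℕ, ∀ M : ℕ, M₀ ≤ M → Even M →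
        ∀ q a : ℕ, Adm M δ q a → ∀ u Y : ℕ, (M : ℝ) ^ θ ≤ Y → Y ≤ M → Y ≤ u →
          ∀ A : Set ℕ, (∀ m ∈ A, Good M q a r m) →
            (N (Irr A (1 / V M q r) c η B Y) u (u + Y) : ℝ) ≤ ε * (Y * V M q r) := by
  obtain ⟨r1, hlaw⟩ := prog2_gap 1 (δ / 2) θ one_pos (by positivity) hθ k₀ x₀ ε hε
  obtain ⟨r2, hr22, hher⟩ := prog2_her 1 θ one_pos hθ
  refine ⟨max r1 r2, ?_⟩
  intro r hr
  have hr1 : r1 ≤ r := (le_max_left _ _).trans hr
  have hr2' : r2 ≤ r := (le_max_right _ _).trans hr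
  have hr2 : 2 ≤ r := hr22.trans hr2'
  have hrr : (2 : ℝ) ≤ r := by exact_mod_cast hr2
  have hcop : ∀ M a : ℕ, ((M : ℤ) - a) = (-1) * a + M := fun M a => by ring
  constructor
  · obtain ⟨N0, hN0⟩ := eventually_atTop.1 ((hlaw r hr1).and (Pool.Agent.Y879.GL.level_ok r hr2))
    refine ⟨max N0 2, ?_⟩
    intro M hM hev q a hadm
    obtain ⟨hq, hqM, haM, hqa, hqf⟩ := hadm
    obtain ⟨h1, h3⟩ := hN0 M ((le_max_left _ _).trans hM)
    have hM2 : 2 ≤ M := (le_max_right _ _).trans hM
    have hM2r : (2 : ℝ) ≤ M := by exact_mod_cast hM2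
    have hMpos : (0 : ℝ) < M := by linarith
    have hM1 : (1 : ℝ) < M := by linarith
    have hevZ : Even (M : ℤ) := by exact_mod_cast hev
    have hz3 : (3 : ℝ) ≤ (M : ℝ) ^ (1 / (r : ℝ)) := by
      have h4 : ((3 : ℕ) : ℝ) ≤ (M : ℝ) ^ (1 / (r : ℝ)) :=
        (Nat.le_floor_iff (by positivity)).1 h3.1
      exact_mod_cast h4
    have hpow : ((M : ℝ) ^ (1 / (r : ℝ))) ^ r = M := by
      rw [← Real.rpow_natCast, ← Real.rpow_mul hMpos.le, one_div, inv_mul_cancel₀ (by linarith),
        Real.rpow_one]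
    refine ⟨?_, ?_, ?_⟩
    · intro m hm hmM hg
      constructor
      · refine few_of_rough ((M : ℝ) ^ (1 / (r : ℝ))) (by linarith) (a + q * m) r (by omega) ?_ ?_
        · rw [hpow]
          exact_mod_cast hmM.le
        · intro p hp hpn
          by_contra hcon
          rw [not_lt] at hcon
          refine (hg p hp hcon).1 ?_
          have := Int.natCast_dvd_natCast.2 hpn
          push_cast at this
          exact this
      · refine few_of_rough ((M : ℝ) ^ (1 / (r : ℝ))) (by linarith) (M - (a + q * m)) r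
          (by omega) ?_ ?_
        · rw [hpow]
          exact_mod_cast Nat.sub_le _ _
        · intro p hp hpn
          by_contra hcon
          rw [not_lt] at hcon
          refine (hg p hp hcon).2 ?_
          have h5 := Int.natCast_dvd_natCast.2 hpn
          rw [Nat.cast_sub hmM.le] at h5
          push_cast at h5
          exact h5
    · intro m hp1 hp2 hb1 hb2 p hp hpr
      constructor
      · intro hd
        have h4 : p ∣ a + q * m := by
          apply Int.natCast_dvd_natCast.1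
          push_cast
          exact hd
        rw [(Nat.prime_dvd_prime_iff_eq hp hp1).1 h4] at hpr
        linarith
      · intro hd
        have hlt : a + q * m < M := by
          by_contra hcon
          rw [not_lt] at hcon
          rw [Nat.sub_eq_zero_of_le hcon] at hp2
          exact Nat.not_prime_zero hp2
        have h4 : p ∣ M - (a + q * m) := by
          apply Int.natCast_dvd_natCast.1
          rw [Nat.cast_sub hlt.le]
          push_cast
          exact hd
        rw [(Nat.prime_dvd_prime_iff_eq hp hp2).1 h4] at hpr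
        linarith
    · intro u Y k T hY hkT
      rw [V_eq] at hkT ⊢
      rw [Near_eq]
      have hqM1 : (q : ℝ) ≤ (M : ℝ) ^ (1 : ℝ) :=
        hqM.trans (Real.rpow_le_rpow_of_exponent_le hM1.le (by linarith))
      rw [hcop] at hqf
      have h4 := h1 (-1) (M : ℤ) q a he hevZ (by exact_mod_cast (by omega : M ≠ 0))
        (by
          rw [Real.rpow_one]
          push_cast
          rw [abs_of_pos hMpos]) hq hqM1 (by rw [Real.rpow_one]; exact_mod_cast haM) hqa hqf
        (by
          intro t ht htN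
          have h5 : (q : ℝ) * t < M := by
            calc (q : ℝ) * t ≤ (M : ℝ) ^ (1 - δ) * (M : ℝ) ^ (δ / 2) := by gcongr
              _ = (M : ℝ) ^ (1 - δ / 2) := by
                rw [← Real.rpow_add hMpos]
                congr 1
                ring
              _ < (M : ℝ) ^ (1 : ℝ) := Real.rpow_lt_rpow_of_exponent_lt hM1 (by linarith)
              _ = M := Real.rpow_one _
          have h6 : q * t < M := by exact_mod_cast h5
          intro h7
          have h8 : ((q : ℤ) * t) < M := by exact_mod_cast h6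
          have h9 : (0 : ℤ) ≤ (q : ℤ) * t := by positivity
          nlinarith)
        u Y hY k T hkT
      unfold Ck pw at h4
      exact h4
  · obtain ⟨c, hc, h2⟩ := hher r hr2' ε hε
    refine ⟨c, hc, ?_⟩
    intro η hη
    obtain ⟨B, h3⟩ := h2 η hη
    obtain ⟨N1, hN1⟩ := eventually_atTop.1 h3
    refine ⟨B, max N1 2, ?_⟩
    intro M hM hev q a hadm u Y hMY hYM hYu A hA
    obtain ⟨hq, hqM, haM, hqa, hqf⟩ := hadm
    have hM2 : 2 ≤ M := (le_max_right _ _).trans hM
    have hM2r : (2 : ℝ) ≤ M := by exact_mod_cast hM2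
    have hMpos : (0 : ℝ) < M := by linarith
    have hM1 : (1 : ℝ) < M := by linarith
    have hevZ : Even (M : ℤ) := by exact_mod_cast hev
    have hqM1 : (q : ℝ) ≤ (M : ℝ) ^ (1 : ℝ) :=
      hqM.trans (Real.rpow_le_rpow_of_exponent_le hM1.le (by linarith))
    rw [hcop] at hqf
    rw [V_eq]
    exact hN1 M ((le_max_left _ _).trans hM) (-1) (M : ℤ) q a he hevZ
      (by exact_mod_cast (by omega : M ≠ 0))
      (by
        rw [Real.rpow_one]
        push_cast
        rw [abs_of_pos hMpos]) hq hqM1 (by rw [Real.rpow_one]; exact_mod_cast haM) hqa hqf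
      u Y hMY hYM hYu A (fun m hm => (good_iff M q a r m).1 (hA m hm))

end Pool.Agent.Results.MP_61161c_nt.GoldbachProgressions
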