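import Pool.Agent.Y829.SB7

set_option autoImplicit false

/-!
# Goldbach's problem with one prime of any prescribed size, on average over every sieve weight

Author: helper829. Hardy and Littlewood predict that the number of `p ∈ (U, 2U]` with `N - p` prime is close to
`(π(2U) - π(U)) 𝔖(N) / log N` for even `N`, for `U` larger than `(log N)^(1+ε)`. We prove that this is so, for every
`U` with `(log X)^(1+ε) ≤ U ≤ X^(4/5)`, on average over the even `N ∈ (X, 2X]` with respect to EVERY nonnegative
sieve weight in the range of the theorem of Bombieri and Vinogradov which loses at most powers of `log X`. In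
particular no such weight (indicators of residue classes, Selberg and Maynard weights, products of these) is
supported on even integers which are not sums of two primes, nor on those whose least Goldbach prime exceeds
`(log N)^(1+ε)`, nor on those with no Goldbach prime in `(U, 2U]`. The primes `p` and `N - p` are distinct here.

Proof. By the theorem of Bombieri and Vinogradov (proved in the starting repository) the weighted number of
primes `N - p`, for fixed `p`, is given by a singular series; the sum of these over `p` is the weighted mean, over a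
complete period of the weight, of the number of `p` with `N - p` free of primes up to the level. For the
primes larger than `(log log X)^5` this number is concentrated (exponential moments in three stages), with
exceptions which have small mass with respect to the weight (Cauchy-Schwarz inequality); for the other primes
the fundamental lemma of the sieve and the theorem of Siegel and Walfisz apply to all `N`.
-/

open Finset

namespace Pool.Agent.Results.MP_61161c_nt.SieveWeightsEveryScale

/-- the weight `w(N) = ∑_{d ≤ Q} c_d(N mod d)` -/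
noncomputable def weight (Q : ℕ) (c : ℕ → ℕ → ℝ) (N : ℕ) : ℝ := ∑ d ∈ Icc 1 Q, c d (N % d)

/-- `w` is nonnegative, `w(N) = 0` for odd `N`, `∑_{d ≤ Q} (∑_{a mod d} |c_d(a)|)² / d ≤ (log X)^K`, and the sum of
`w(N)` over `X < N ≤ 2X` is at least `X / (log X)^K` -/
def Good (K X Q : ℕ) (c : ℕ → ℕ → ℝ) : Prop :=
  (∀ N, 0 ≤ weight Q c N) ∧ (∀ N, ¬ Even N → weight Q c N = 0) ∧
    ∑ d ∈ Icc 1 Q, (∑ a ∈ range d, |c d a|) ^ 2 / (d : ℝ) ≤ Real.log X ^ K ∧
    X / Real.log X ^ K ≤ ∑ N ∈ Ioc X (2 * X), weight Q c N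

/-- the number of primes `p ∈ (U, 2U]` such that `N - p` is a prime -/
def reps (U N : ℕ) : ℕ := ((Ioc U (2 * U)).filter (fun p => p.Prime ∧ (N - p).Prime)).card

/-- the number of primes in `(U, 2U]` -/
def primes (U : ℕ) : ℕ := ((Ioc U (2 * U)).filter Nat.Prime).card

/-- the local factor `2 ∏_{2 < p ≤ y} (1 - 1 / (p - 1)²) ∏_{p ∣ N, 2 < p ≤ y} (p - 1) / (p - 2)`, `y = (log log X)^5` -/
noncomputable def localFactor (X N : ℕ) : ℝ :=
  2 * (∏ p ∈ (Icc 3 ⌊Real.log (Real.log X) ^ 5⌋₊).filter Nat.Prime, (1 - 1 / ((p : ℝ) - 1) ^ 2)) *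
    ∏ p ∈ (Icc 3 ⌊Real.log (Real.log X) ^ 5⌋₊).filter (fun p => p.Prime ∧ p ∣ N), (((p : ℝ) - 1) / (p - 2))

/-- Let `A > 1`, `K` and `ε > 0`. There are `B` and `X₀` such that for all `X ≥ X₀`, all `U` with
`(log X)^A ≤ U ≤ X^(4/5)`, all `Q` with `Q² (log X)^B ≤ X` and all good weights `w` of level `Q`: the sum of
`w(N) #{U < p ≤ 2U : p and N - p primes}` over `X < N ≤ 2X` equals `((π(2U) - π(U)) / log X) ∑ w(N) 𝔖(N)` up to the
factor `1 ± ε`, where `𝔖(N)` is the local factor of Hardy and Littlewood, truncated at `(log log X)^5`. -/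
theorem result (A : ℝ) (hA : 1 < A) (K : ℕ) (ε : ℝ) (hε : 0 < ε) : ∃ B X₀ : ℕ,
    ∀ X U Q : ℕ, X₀ ≤ X → Real.log X ^ A ≤ U → (U : ℝ) ≤ (X : ℝ) ^ (4 / 5 : ℝ) → 1 ≤ Q →
    (Q : ℝ) ^ 2 * Real.log X ^ B ≤ X → ∀ c : ℕ → ℕ → ℝ, Good K X Q c →
    |∑ N ∈ Ioc X (2 * X), weight Q c N * (reps U N : ℝ) -
      primes U / Real.log X * ∑ N ∈ Ioc X (2 * X), weight Q c N * localFactor X N| ≤
    ε * (primes U / Real.log X * ∑ N ∈ Ioc X (2 * X), weight Q c N * localFactor X N) := by
  obtain ⟨e, he⟩ := exists_pow_lt_of_lt_one hε (show (1 / 2 : ℝ) < 1 by norm_num)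
  obtain ⟨B, X₀, h⟩ := Pool.Agent.Y829.SB.goldbach A hA K e
  refine ⟨B, X₀, ?_⟩
  intro X U Q hX hU hU' hQ hQX c hc
  obtain ⟨c1, c4, c2, c3⟩ := hc
  have h2 := h X hX U Q hU hU' hQ hQX c c1 c2 c3 c4
  have e1 : ∀ N, Pool.Agent.Y829.SA.Pr (Pool.Agent.Y829.SB.HP U) N = (reps U N : ℝ) := by
    intro N
    unfold Pool.Agent.Y829.SA.Pr Pool.Agent.Y829.SB.HP reps
    rw [filter_filter]
  simp only [e1] at h2
  refine h2.trans ?_
  apply mul_le_mul_of_nonneg_right he.le
  apply mul_nonneg
  · have : 0 ≤ Real.log (X : ℝ) := Real.log_natCast_nonneg X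
    positivity
  · apply sum_nonneg
    intro n _
    apply mul_nonneg (c1 n)
    unfold Pool.Agent.Y829.SB.cl
    apply mul_nonneg
    · apply mul_nonneg (by norm_num)
      apply prod_nonneg
      intro p hp
      rw [mem_filter, mem_Icc] at hp
      have h3 : (3 : ℝ) ≤ p := by exact_mod_cast hp.1.1
      have h4 : (1 : ℝ) ≤ ((p : ℝ) - 1) ^ 2 := by nlinarith
      have h5 : 1 / ((p : ℝ) - 1) ^ 2 ≤ 1 := by
        rw [div_le_one (by linarith)]
        exact h4
      linarith
    · apply prod_nonneg
      intro p hp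
      rw [mem_filter, mem_Icc] at hp
      have h3 : (3 : ℝ) ≤ p := by exact_mod_cast hp.1.1
      apply div_nonneg <;> linarith

end Pool.Agent.Results.MP_61161c_nt.SieveWeightsEveryScale
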